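import Pool.Agent.Helper48.CC.Cert

/-!
# Soundness of the certificates: the affine form of the letters
-/

namespace CC48

section
variable {A : Type*} [AddCommGroup A]

/-- sum of the values at the exponents in the type -/
def S (H : List ℕ) (δ : ℕ → A) (b : ℕ → Bool) : A := (H.map fun t => (b t).toNat • δ t).sum

theorem S_congr {H : List ℕ} {δ : ℕ → A} {b b' : ℕ → Bool} (h : ∀ t ∈ H, b t = b' t) :
    S H δ b = S H δ b' := by
  unfold S
  congr 1
  exact List.map_congr_left fun t ht => by rw [h t ht]

theorem S_add {H : List ℕ} {δ : ℕ → A} {b1 b2 b3 b4 : ℕ → Bool}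
    (h : ∀ t ∈ H, (b1 t).toNat + (b2 t).toNat = (b3 t).toNat + (b4 t).toNat) :
    S H δ b1 + S H δ b2 = S H δ b3 + S H δ b4 := by
  unfold S
  rw [← List.sum_map_add, ← List.sum_map_add]
  congr 1
  exact List.map_congr_left fun t ht => by rw [← add_smul, ← add_smul, h t ht]

theorem S_not {H : List ℕ} {δ : ℕ → A} {b : ℕ → Bool} :
    S H δ b + S H δ (fun t => !b t) = (H.map δ).sum := by
  unfold S
  rw [← List.sum_map_add]
  congr 1
  refine List.map_congr_left fun t ht => ?_
  cases h : b t <;> simp [h]

theorem S_zero {H : List ℕ} {δ : ℕ → A} {b : ℕ → Bool} (h : ∀ t ∈ H, b t = false) :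
    S H δ b = 0 := by
  rw [S_congr h]
  unfold S
  apply List.sum_eq_zero
  simp

theorem S_single {H : List ℕ} (hH : H.Nodup) {δ : ℕ → A} {s : ℕ} (hs : s ∈ H) {b : ℕ → Bool}
    (h : ∀ t ∈ H, b t = (t == s)) : S H δ b = δ s := by
  rw [S_congr h]
  unfold S
  rw [← List.sum_toFinset _ hH, Finset.sum_eq_single s]
  · simp
  · intro t _ hts
    have : (t == s) = false := by simpa using hts
    simp only [this]
    simp
  · intro h
    exact absurd (List.mem_toFinset.2 hs) h

/-- the hypotheses on a system of letters -/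
structure Sys (m : ℕ) (H : List ℕ) (q : A) (L : ℕ → ℕ → A) : Prop where
  same : ∀ a b a' b', Val m a b → Val m a' b' → (∀ t ∈ H, bit m t a b = bit m t a' b') →
    L a b = L a' b'
  conj : ∀ a b, Val m a b → L a b + L (m - a) (m - b) = q
  assoc : ∀ a b c, Val m a b → Val m ((a + b) % m) c → Val m b c → Val m a ((b + c) % m) →
    L a b + L ((a + b) % m) c = L b c + L a ((b + c) % m)

/-- the affine form at one pair -/
def Aff (m : ℕ) (H : List ℕ) (L : ℕ → ℕ → A) (c0 : A) (δ : ℕ → A) (a b : ℕ) : Prop :=
  L a b = c0 + S H δ fun t => bit m t a b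

theorem tv_eq_iff {m : ℕ} {H : List ℕ} {a b a' b' : ℕ} :
    tv m H a b = tv m H a' b' ↔ ∀ t ∈ H, bit m t a b = bit m t a' b' := by
  unfold tv
  exact List.map_inj_left

theorem Aff.transfer {m : ℕ} {H : List ℕ} {q : A} {L : ℕ → ℕ → A} {c0 : A} {δ : ℕ → A}
    (hS : Sys m H q L) {a b a' b' : ℕ} (h : Val m a b) (h' : Val m a' b')
    (e : tv m H a b = tv m H a' b') (hA : Aff m H L c0 δ a b) : Aff m H L c0 δ a' b' := by
  have e' := tv_eq_iff.1 e
  unfold Aff at *
  rw [← hS.same a b a' b' h h' e', hA]
  congr 1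
  exact S_congr e'

/-- every pair with a known type is affine -/
def Good (m : ℕ) (H : List ℕ) (L : ℕ → ℕ → A) (c0 : A) (δ : ℕ → A) (v : List Bool) : Prop :=
  ∀ a b, Val m a b → tv m H a b = v → Aff m H L c0 δ a b

theorem good_of {m : ℕ} {H : List ℕ} {q : A} {L : ℕ → ℕ → A} {c0 : A} {δ : ℕ → A}
    (hS : Sys m H q L) {a b : ℕ} (h : Val m a b) (hA : Aff m H L c0 δ a b) :
    Good m H L c0 δ (tv m H a b) := fun _ _ h' e => hA.transfer hS h h' e.symm

theorem good_not {m : ℕ} {H : List ℕ} {q : A} {L : ℕ → ℕ → A} {c0 : A} {δ : ℕ → A}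
    (hS : Sys m H q L) (hH : ∀ t ∈ H, t.Coprime m) (hq : c0 + c0 + (H.map δ).sum = q)
    {v : List Bool} (hv : Good m H L c0 δ v) : Good m H L c0 δ (v.map not) := by
  intro a b h e
  have h1 : tv m H (m - a) (m - b) = v := by
    have : tv m H (m - a) (m - b) = (tv m H a b).map not := by
      unfold tv
      rw [List.map_map]
      exact List.map_congr_left fun t ht => bit_neg (hH t ht) h
    rw [this, e, List.map_map]
    have : (not ∘ not) = id := by funext x; simp
    rw [this, List.map_id]
  have h2 := hv _ _ h.neg h1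
  have h3 := hS.conj a b h
  unfold Aff at *
  have h4 : S H δ (fun t => bit m t (m - a) (m - b)) = S H δ fun t => !bit m t a b :=
    S_congr fun t ht => bit_neg (hH t ht) h
  have h5 : S H δ (fun t => bit m t a b) + S H δ (fun t => !bit m t a b) = (H.map δ).sum := S_not
  rw [h4] at h2
  rw [h2, ← hq, ← h5] at h3
  have : L a b = (c0 + c0 + (S H δ (fun t => bit m t a b) + S H δ fun t => !bit m t a b)) -
      (c0 + S H δ fun t => !bit m t a b) := by
    rw [← h3]; abel
  rw [this]
  abel

theorem Cert.chk_good (C : Cert) {q : A} {L : ℕ → ℕ → A} {c0 : A} {δ : ℕ → A}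
    (hS : Sys C.m C.half q L) (hH : ∀ t ∈ C.half, t.Coprime C.m)
    (hq : c0 + c0 + (C.half.map δ).sum = q) :
    ∀ (s : List (ℕ × ℕ × ℕ × ℕ)) (K : List (List Bool)),
      (∀ v ∈ K, Good C.m C.half L c0 δ v) → ∀ v ∈ C.chk s K, Good C.m C.half L c0 δ v
  | [], K, hK, v, hv => hK v hv
  | (a, b, c, p) :: s, K, hK, v, hv => by
    rw [Cert.chk] at hv
    simp only at hv
    split at hv
    case isFalse => simp at hv
    case isTrue hc =>
      unfold Cert.cond at hc
      simp only [Bool.and_eq_true, decide_eq_true_eq] at hc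
      obtain ⟨⟨⟨⟨h1, h2⟩, h3⟩, h4⟩, h5⟩ := hc
      have h5' : ∀ t ∈ C.half, (bit C.m t a b).toNat + (bit C.m t ((a + b) % C.m) c).toNat =
          (bit C.m t b c).toNat + (bit C.m t a ((b + c) % C.m)).toNat := by
        intro t ht
        have := (List.all_eq_true.1 h5) t ht
        simpa using this
      have hsum := S_add (δ := δ) h5'
      have hL := hS.assoc a b c h1 h2 h3 h4
      have key : ∀ {x y : ℕ}, Val C.m x y → Aff C.m C.half L c0 δ x y →
          ∀ w ∈ C.tv x y :: (C.tv x y).map not :: K, Good C.m C.half L c0 δ w := by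
        intro x y hxy hA w hw
        have hg : Good C.m C.half L c0 δ (C.tv x y) := good_of hS hxy hA
        rcases List.mem_cons.1 hw with rfl | hw
        · exact hg
        rcases List.mem_cons.1 hw with rfl | hw
        · exact good_not hS hH hq hg
        · exact hK w hw
      split at hv
      · split at hv
        case isFalse => simp at hv
        case isTrue hc =>
          simp only [Bool.and_eq_true, List.contains_iff_mem] at hc
          obtain ⟨⟨k1, k2⟩, k3⟩ := hc
          have g1 := hK _ k1 a b h1 rfl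
          have g2 := hK _ k2 b c h3 rfl
          have g3 := hK _ k3 a _ h4 rfl
          refine Cert.chk_good C hS hH hq s _ (key h2 ?_) v hv
          unfold Aff at *
          rw [g1, g2, g3] at hL
          have : L ((a + b) % C.m) c = (c0 + S C.half δ (fun t => bit C.m t b c)) +
            (c0 + S C.half δ fun t => bit C.m t a ((b + c) % C.m)) -
            (c0 + S C.half δ fun t => bit C.m t a b) := by rw [← hL]; abel
          rw [this]
          have e2 : S C.half δ (fun t => bit C.m t ((a + b) % C.m) c) =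
            (S C.half δ (fun t => bit C.m t b c) +
            S C.half δ fun t => bit C.m t a ((b + c) % C.m)) -
            S C.half δ fun t => bit C.m t a b := by rw [← hsum]; abel
          rw [e2]
          abel
      split at hv
      · split at hv
        case isFalse => simp at hv
        case isTrue hc =>
          simp only [Bool.and_eq_true, List.contains_iff_mem] at hc
          obtain ⟨⟨k1, k2⟩, k3⟩ := hc
          have g1 := hK _ k1 a b h1 rfl
          have g2 := hK _ k2 _ c h2 rfl
          have g3 := hK _ k3 a _ h4 rfl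
          refine Cert.chk_good C hS hH hq s _ (key h3 ?_) v hv
          unfold Aff at *
          rw [g1, g2, g3] at hL
          have : L b c = (c0 + S C.half δ (fun t => bit C.m t a b)) +
            (c0 + S C.half δ fun t => bit C.m t ((a + b) % C.m) c) -
            (c0 + S C.half δ fun t => bit C.m t a ((b + c) % C.m)) := by rw [hL]; abel
          rw [this]
          have e2 : S C.half δ (fun t => bit C.m t b c) =
            (S C.half δ (fun t => bit C.m t a b) +
            S C.half δ fun t => bit C.m t ((a + b) % C.m) c) -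
            S C.half δ fun t => bit C.m t a ((b + c) % C.m) := by rw [hsum]; abel
          rw [e2]
          abel
      · split at hv
        case isFalse => simp at hv
        case isTrue hc =>
          simp only [Bool.and_eq_true, List.contains_iff_mem] at hc
          obtain ⟨⟨k1, k2⟩, k3⟩ := hc
          have g1 := hK _ k1 a b h1 rfl
          have g2 := hK _ k2 _ c h2 rfl
          have g3 := hK _ k3 b c h3 rfl
          refine Cert.chk_good C hS hH hq s _ (key h4 ?_) v hv
          unfold Aff at *
          rw [g1, g2, g3] at hL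
          have : L a ((b + c) % C.m) = (c0 + S C.half δ (fun t => bit C.m t a b)) +
            (c0 + S C.half δ fun t => bit C.m t ((a + b) % C.m) c) -
            (c0 + S C.half δ fun t => bit C.m t b c) := by rw [hL]; abel
          rw [this]
          have e2 : S C.half δ (fun t => bit C.m t a ((b + c) % C.m)) =
            (S C.half δ (fun t => bit C.m t a b) +
            S C.half δ fun t => bit C.m t ((a + b) % C.m) c) -
            S C.half δ fun t => bit C.m t b c := by rw [hsum]; abel
          rw [e2]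
          abel

/-- unpacking the check -/
theorem Cert.ok_iff (C : Cert) (h : C.ok = true) :
    0 < C.m ∧ C.half.Nodup ∧ (∀ t ∈ C.half, t.Coprime C.m ∧ 2 * t < C.m) ∧
    Val C.m C.r0.1 C.r0.2 ∧ (C.tv C.r0.1 C.r0.2 = C.half.map fun _ => false) ∧
    (∀ t ∈ C.H, Val C.m (C.pr t).1 (C.pr t).2 ∧
      C.tv (C.pr t).1 (C.pr t).2 = C.half.map fun s => s == t) ∧
    (∀ v ∈ allv C.half.length, v ∈ C.chk C.steps C.start) ∧
    (∀ p ∈ C.reps, Val C.m p.1 p.2) ∧
    (C.reps.map (fun p => C.tv p.1 p.2) = allv C.half.length) ∧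
    (∀ t < C.m, t.Coprime C.m → 2 * t ≤ C.m → t ∈ C.half) := by
  unfold Cert.ok at h
  simp only [Bool.and_eq_true, decide_eq_true_eq, List.all_eq_true, beq_iff_eq,
    List.contains_iff_mem, Bool.or_eq_true, Bool.not_eq_true', decide_eq_false_iff_not,
    List.mem_range] at h
  obtain ⟨⟨⟨⟨⟨⟨⟨⟨⟨h1, h2⟩, h3⟩, h4⟩, h5⟩, h6⟩, h7⟩, h8⟩, h9⟩, h10⟩ := h
  refine ⟨h1, h2, fun t ht => h3 t ht, h4, h5, fun t ht => h6 t ht, h7, h8, h9, ?_⟩
  intro t ht hc ht2
  rcases h10 t ht with (h | h) | h
  · exact absurd hc h
  · omega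
  · exact h

theorem Cert.affine (C : Cert) (hok : C.ok = true) {q : A} {L : ℕ → ℕ → A}
    (hS : Sys C.m C.half q L) :
    ∃ (c0 : A) (δ : ℕ → A), c0 + c0 + (C.half.map δ).sum = q ∧
      ∀ a b, Val C.m a b → L a b = c0 + S C.half δ fun t => bit C.m t a b := by
  obtain ⟨hm, hnd, hH, hr0, hr0', hr, hall, -, -, -⟩ := C.ok_iff hok
  have hH' : ∀ t ∈ C.half, t.Coprime C.m := fun t ht => (hH t ht).1
  set c0 : A := L C.r0.1 C.r0.2 with hc0
  set δ1 : ℕ → A := fun t => L (C.pr t).1 (C.pr t).2 - c0 with hδ1
  set δ : ℕ → A := fun t => if t = C.t0 then q - c0 - c0 - (C.H.map δ1).sum else δ1 t with hδ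
  have hnd' : C.t0 ∉ C.H ∧ C.H.Nodup := by
    unfold Cert.half at hnd
    exact List.nodup_cons.1 hnd
  have e1 : C.H.map δ = C.H.map δ1 := by
    refine List.map_congr_left fun t ht => ?_
    simp only [hδ]
    rw [if_neg (by rintro rfl; exact hnd'.1 ht)]
  have hq : c0 + c0 + (C.half.map δ).sum = q := by
    unfold Cert.half
    rw [List.map_cons, List.sum_cons, e1]
    simp only [hδ, if_true]
    abel
  refine ⟨c0, δ, hq, ?_⟩
  have hstart : ∀ v ∈ C.start, Good C.m C.half L c0 δ v := by
    have g0 : Good C.m C.half L c0 δ (C.half.map fun _ => false) := by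
      rw [← hr0']
      refine good_of hS hr0 ?_
      unfold Aff
      rw [S_zero, add_zero]
      intro t ht
      have : CC48.tv C.m C.half C.r0.1 C.r0.2 = C.half.map fun _ => false := hr0'
      unfold CC48.tv at this
      exact (List.map_inj_left.1 this) t ht
    have g1 : ∀ t ∈ C.H, Good C.m C.half L c0 δ (C.half.map fun s => s == t) := by
      intro t ht
      obtain ⟨k1, k2⟩ := hr t ht
      rw [← k2]
      refine good_of hS k1 ?_
      unfold Aff
      rw [S_single hnd (s := t) (List.mem_cons_of_mem _ ht)]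
      · simp only [hδ]
        rw [if_neg (by rintro rfl; exact hnd'.1 ht)]
        simp only [hδ1]
        abel
      · unfold Cert.tv CC48.tv at k2
        exact List.map_inj_left.1 k2
    intro v hv
    unfold Cert.start at hv
    rcases List.mem_cons.1 hv with rfl | hv
    · exact g0
    rcases List.mem_cons.1 hv with rfl | hv
    · have := good_not hS hH' hq g0
      rw [List.map_map] at this
      exact this
    rcases List.mem_append.1 hv with hv | hv
    · obtain ⟨t, ht, rfl⟩ := List.mem_map.1 hv
      exact g1 t ht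
    · obtain ⟨t, ht, rfl⟩ := List.mem_map.1 hv
      exact good_not hS hH' hq (g1 t ht)
  intro a b hab
  have h1 : C.tv a b ∈ allv C.half.length := mem_allv _ _ (by simp [Cert.tv, CC48.tv])
  exact C.chk_good hS hH' hq C.steps C.start hstart _ (hall _ h1) a b hab rfl

/-- every type occurs -/
theorem Cert.types (C : Cert) (hok : C.ok = true) (f : ℕ → Bool) :
    ∃ a b, Val C.m a b ∧ ∀ t ∈ C.half, bit C.m t a b = f t := by
  obtain ⟨-, -, -, -, -, -, -, hr, hr', -⟩ := C.ok_iff hok
  have h1 : C.half.map f ∈ allv C.half.length := mem_allv _ _ (by simp)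
  rw [← hr', List.mem_map] at h1
  obtain ⟨p, hp, he⟩ := h1
  refine ⟨p.1, p.2, hr p hp, ?_⟩
  unfold Cert.tv CC48.tv at he
  exact List.map_inj_left.1 he

end

end CC48
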