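import Pool.Agent.Helper48.CC.Affine

/-!
# Averages of CM types over the powers of `p`
-/

namespace CC48

open Finset

/-- the number of places without carry above the exponent `t` -/
def av (m p f t a b : ℕ) : ℕ := ∑ k ∈ range f, (bit m (p ^ k * t) a b).toNat

theorem bit_congr {m t t' a b : ℕ} (h : t % m = t' % m) : bit m t a b = bit m t' a b := by
  rw [← bit_mod m t, ← bit_mod m t', h]

theorem av_congr {m p f t t' a b : ℕ} (h : t % m = t' % m) : av m p f t a b = av m p f t' a b := by
  unfold av
  refine sum_congr rfl fun k _ => ?_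
  rw [bit_congr (t' := p ^ k * t')]
  rw [Nat.mul_mod, h, ← Nat.mul_mod]

theorem av_mod (m p f t a b : ℕ) : av m p f (t % m) a b = av m p f t a b :=
  av_congr (Nat.mod_mod _ _)

theorem av_mul {m p f : ℕ} (hf : p ^ f % m = 1 % m) (t a b : ℕ) :
    av m p f (p * t) a b = av m p f t a b := by
  have h1 : (bit m (p ^ f * t) a b).toNat = (bit m (p ^ 0 * t) a b).toNat := by
    rw [bit_congr (t' := p ^ 0 * t)]
    rw [Nat.mul_mod, hf, ← Nat.mul_mod, pow_zero]
  have h2 : av m p f (p * t) a b + (bit m (p ^ 0 * t) a b).toNat =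
      av m p f t a b + (bit m (p ^ f * t) a b).toNat := by
    unfold av
    rw [← sum_range_succ (fun k => (bit m (p ^ k * t) a b).toNat) f,
      sum_range_succ' (fun k => (bit m (p ^ k * t) a b).toNat) f]
    congr 1
    refine sum_congr rfl fun k _ => ?_
    rw [pow_succ, mul_assoc]
  omega

theorem av_pow {m p f : ℕ} (hf : p ^ f % m = 1 % m) (k t a b : ℕ) :
    av m p f (p ^ k * t) a b = av m p f t a b := by
  induction k with
  | zero => simp
  | succ k ih => rw [pow_succ', mul_assoc, av_mul hf, ih]

theorem coprime_mod {m t : ℕ} (h : t.Coprime m) : (t % m).Coprime m := by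
  have := (Nat.coprime_mul_right_add_left (t % m) m (t / m))
  rw [Nat.Coprime, ← Nat.gcd_rec, Nat.gcd_comm]
  exact h

theorem coprime_neg {m t : ℕ} (htm : t ≤ m) (h : t.Coprime m) : (m - t).Coprime m :=
  (Nat.coprime_self_sub_left htm).2 h

theorem pos_of_coprime {m t : ℕ} (hm : 1 < m) (h : t.Coprime m) : 0 < t := by
  rcases Nat.eq_zero_or_pos t with rfl | h1
  · simp at h; omega
  · exact h1

theorem bit_neg_exp {m p k t a b : ℕ} (hm : 1 < m) (hp : p.Coprime m) (htm : t < m)
    (ht : t.Coprime m) (h : Val m a b) :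
    bit m (p ^ k * (m - t)) a b = !bit m (p ^ k * t) a b := by
  have h1 : (p ^ k * (m - t)) % m = m - (p ^ k * t) % m :=
    mul_sub_mod (Nat.Coprime.pow_left k hp) (pos_of_coprime hm ht) htm
  have h2 : (p ^ k * t).Coprime m := Nat.Coprime.mul_left (Nat.Coprime.pow_left k hp) ht
  rw [← bit_mod m (p ^ k * (m - t)), h1,
    bit_symm (coprime_mod h2) (Nat.mod_lt _ (by omega)).le h, bit_mod]

theorem av_neg {m p f t a b : ℕ} (hm : 1 < m) (hp : p.Coprime m) (htm : t < m)
    (ht : t.Coprime m) (h : Val m a b) :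
    av m p f (m - t) a b + av m p f t a b = f := by
  unfold av
  rw [← sum_add_distrib]
  rw [sum_congr rfl (g := fun _ => 1)]
  · simp
  intro k _
  rw [bit_neg_exp hm hp htm ht h]
  cases bit m (p ^ k * t) a b <;> simp

theorem av_neg_pair {m p f t a b : ℕ} (hm : 1 < m) (hp : p.Coprime m)
    (ht : t.Coprime m) (h : Val m a b) :
    av m p f t (m - a) (m - b) + av m p f t a b = f := by
  unfold av
  rw [← sum_add_distrib]
  rw [sum_congr rfl (g := fun _ => 1)]
  · simp
  intro k _
  rw [bit_neg (Nat.Coprime.mul_left (Nat.Coprime.pow_left k hp) ht) h]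
  cases bit m (p ^ k * t) a b <;> simp

/-- a half system of the units modulo `m` which is a union of cosets -/
structure ESys (m p f : ℕ) (G : Finset ℕ) : Prop where
  unit : ∀ g ∈ G, g < m ∧ g.Coprime m
  cover : ∀ t, t < m → t.Coprime m → ∃ g ∈ G, ∃ k < f, p ^ k * g % m = t ∨ p ^ k * g % m = m - t
  inj : ∀ g ∈ G, ∀ g' ∈ G, ∀ k < f, ∀ k' < f, p ^ k * g % m = p ^ k' * g' % m → g = g' ∧ k = k'
  disj : ∀ g ∈ G, ∀ g' ∈ G, ∀ k < f, ∀ k' < f, p ^ k * g % m ≠ m - p ^ k' * g' % m

/-- computing the representatives -/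
def repsList (m p f : ℕ) : List ℕ :=
  (List.range m).foldl (fun G t =>
    if Nat.gcd t m == 1 && !(G.any fun g => (List.range f).any fun k =>
      (p ^ k * g % m == t) || (m - p ^ k * g % m == t)) then t :: G else G) []

/-- the check -/
def chkE (m p f : ℕ) : Bool :=
  let G := repsList m p f
  (G.all fun g => decide (g < m) && decide (Nat.gcd g m = 1)) &&
  ((List.range m).all fun t => !(decide (Nat.gcd t m = 1)) || (G.any fun g =>
    (List.range f).any fun k => decide (p ^ k * g % m = t) || decide (p ^ k * g % m = m - t))) &&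
  (G.all fun g => G.all fun g' => (List.range f).all fun k => (List.range f).all fun k' =>
    (decide (p ^ k * g % m ≠ p ^ k' * g' % m) || (decide (g = g') && decide (k = k'))) &&
    decide (p ^ k * g % m ≠ m - p ^ k' * g' % m))

theorem chkE_sound {m p f : ℕ} (h : chkE m p f = true) : ESys m p f (repsList m p f).toFinset := by
  unfold chkE at h
  simp only [Bool.and_eq_true, decide_eq_true_eq, List.all_eq_true, Bool.or_eq_true,
    Bool.not_eq_true', decide_eq_false_iff_not, List.mem_range, List.any_eq_true] at h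
  obtain ⟨⟨h1, h2⟩, h3⟩ := h
  refine ⟨?_, ?_, ?_, ?_⟩
  · intro g hg
    exact h1 g (List.mem_toFinset.1 hg)
  · intro t ht hc
    rcases h2 t ht with h | ⟨g, hg, k, hk, h⟩
    · exact absurd hc h
    · exact ⟨g, List.mem_toFinset.2 hg, k, hk, h⟩
  · intro g hg g' hg' k hk k' hk' e
    rcases (h3 g (List.mem_toFinset.1 hg) g' (List.mem_toFinset.1 hg') k hk k' hk').1 with h | h
    · exact absurd e h
    · exact h
  · intro g hg g' hg' k hk k' hk'
    exact (h3 g (List.mem_toFinset.1 hg) g' (List.mem_toFinset.1 hg') k hk k' hk').2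

/-- the check for all residues `p` and all orders `f` -/
def chkAll (m : ℕ) : Bool :=
  (List.range m).all fun p => !(decide (Nat.gcd p m = 1)) ||
    (((List.range 13).any fun f => decide (0 < f) && decide (p ^ f % m = 1)) &&
    ((List.range 13).all fun f => decide (f = 0) || decide (p ^ f % m ≠ 1) ||
      ((List.range f).any fun i => decide (0 < i) && decide (p ^ i % m = 1)) ||
      ((List.range f).any fun k => decide (p ^ k % m = m - 1)) || chkE m p f))

theorem chkAll_ok : (certs.all fun C => chkAll C.m) = true := by decide +kernel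

end CC48
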