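import Mathlib

/-!
# Cyclotomic CM types of small level: relations between Jacobi letters

A letter `L a b` (for `0 < a, b < m`, `a + b ≠ m`) stands for the class of a Jacobi sum of two
characters of order dividing `m`.  Its CM type is the set of `t` prime to `m` without carry,
`bit m t a b`.  For the nineteen levels `m` in `levels` we show that

* every CM type occurs (`types`);
* the letters form an affine function of the type (`affine`), as soon as they depend on the type
  only, satisfy `L a b + L (-a) (-b) = q` and are associative.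
-/

namespace CC48

/-- good pairs -/
def Val (m a b : ℕ) : Prop := 0 < a ∧ a < m ∧ 0 < b ∧ b < m ∧ a + b ≠ m

instance (m a b : ℕ) : Decidable (Val m a b) := by unfold Val; infer_instance

/-- no carry at `t` -/
def bit (m t a b : ℕ) : Bool := decide (t * a % m + t * b % m < m)

/-- the type vector on a list of exponents -/
def tv (m : ℕ) (H : List ℕ) (a b : ℕ) : List Bool := H.map fun t => bit m t a b

/-! ### residues -/

theorem mul_mod_ne {m t a : ℕ} (ht : t.Coprime m) (ha : 0 < a) (ham : a < m) :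
    t * a % m ≠ 0 := by
  intro h
  have h1 : m ∣ t * a := Nat.dvd_of_mod_eq_zero h
  have h2 : m ∣ a := (Nat.Coprime.symm ht).dvd_of_dvd_mul_left h1
  exact absurd (Nat.le_of_dvd ha h2) (by omega)

theorem mul_sub_mod {m t a : ℕ} (ht : t.Coprime m) (ha : 0 < a) (ham : a < m) :
    t * (m - a) % m = m - t * a % m := by
  have hne := mul_mod_ne ht ha ham
  have hlt : t * a % m < m := Nat.mod_lt _ (by omega)
  have h1 : (t * (m - a) + t * a) ≡ (m - t * a % m) + t * a [MOD m] := by
    have e1 : t * (m - a) + t * a = t * m := by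
      rw [← Nat.mul_add, Nat.sub_add_cancel ham.le]
    have e2 : (m - t * a % m) + t * a ≡ (m - t * a % m) + t * a % m [MOD m] :=
      Nat.ModEq.add_left _ (Nat.mod_modEq _ _).symm
    rw [e1]
    refine Nat.ModEq.trans ?_ e2.symm
    rw [Nat.sub_add_cancel hlt.le]
    unfold Nat.ModEq
    simp
  have h2 : t * (m - a) ≡ (m - t * a % m) [MOD m] := Nat.ModEq.add_right_cancel' _ h1
  unfold Nat.ModEq at h2
  rw [h2, Nat.mod_eq_of_lt (by omega)]

theorem sub_mul_mod {m t a : ℕ} (ht : t.Coprime m) (htm : t ≤ m) (ha : 0 < a) (ham : a < m) :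
    (m - t) * a % m = m - t * a % m := by
  have hne := mul_mod_ne ht ha ham
  have hlt : t * a % m < m := Nat.mod_lt _ (by omega)
  have h1 : ((m - t) * a + t * a) ≡ (m - t * a % m) + t * a [MOD m] := by
    have e1 : (m - t) * a + t * a = m * a := by
      rw [← Nat.add_mul, Nat.sub_add_cancel htm]
    have e2 : (m - t * a % m) + t * a ≡ (m - t * a % m) + t * a % m [MOD m] :=
      Nat.ModEq.add_left _ (Nat.mod_modEq _ _).symm
    rw [e1]
    refine Nat.ModEq.trans ?_ e2.symm
    rw [Nat.sub_add_cancel hlt.le]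
    unfold Nat.ModEq
    simp
  have h2 : (m - t) * a ≡ (m - t * a % m) [MOD m] := Nat.ModEq.add_right_cancel' _ h1
  unfold Nat.ModEq at h2
  rw [h2, Nat.mod_eq_of_lt (by omega)]

theorem add_mod_ne {m t a b : ℕ} (ht : t.Coprime m) (h : Val m a b) :
    t * a % m + t * b % m ≠ m := by
  obtain ⟨ha, ham, hb, hbm, hab⟩ := h
  intro e
  have h1 : m ∣ t * a + t * b := by
    apply Nat.dvd_of_mod_eq_zero
    rw [Nat.add_mod, e, Nat.mod_self]
  rw [← Nat.mul_add] at h1
  obtain ⟨k, hk⟩ := (Nat.Coprime.symm ht).dvd_of_dvd_mul_left h1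
  have hk0 : k ≠ 0 := by rintro rfl; omega
  have hk1 : k ≠ 1 := by rintro rfl; omega
  have : m * 2 ≤ m * k := Nat.mul_le_mul_left _ (by omega)
  omega

theorem bit_neg {m t a b : ℕ} (ht : t.Coprime m) (h : Val m a b) :
    bit m t (m - a) (m - b) = !bit m t a b := by
  have hne := add_mod_ne ht h
  obtain ⟨ha, ham, hb, hbm, hab⟩ := h
  have h1 := mul_sub_mod ht ha ham
  have h2 := mul_sub_mod ht hb hbm
  have h3 := mul_mod_ne ht ha ham
  have h4 := mul_mod_ne ht hb hbm
  have h5 : t * a % m < m := Nat.mod_lt _ (by omega)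
  have h6 : t * b % m < m := Nat.mod_lt _ (by omega)
  unfold bit
  rw [h1, h2, ← decide_not, decide_eq_decide]
  omega

theorem bit_symm {m t a b : ℕ} (ht : t.Coprime m) (htm : t ≤ m) (h : Val m a b) :
    bit m (m - t) a b = !bit m t a b := by
  have hne := add_mod_ne ht h
  obtain ⟨ha, ham, hb, hbm, hab⟩ := h
  have h1 := sub_mul_mod ht htm ha ham
  have h2 := sub_mul_mod ht htm hb hbm
  have h3 := mul_mod_ne ht ha ham
  have h4 := mul_mod_ne ht hb hbm
  have h5 : t * a % m < m := Nat.mod_lt _ (by omega)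
  have h6 : t * b % m < m := Nat.mod_lt _ (by omega)
  unfold bit
  rw [h1, h2, ← decide_not, decide_eq_decide]
  omega

theorem bit_mod (m t a b : ℕ) : bit m (t % m) a b = bit m t a b := by
  unfold bit
  rw [Nat.mod_mul_mod, Nat.mod_mul_mod]

theorem Val.neg {m a b : ℕ} (h : Val m a b) : Val m (m - a) (m - b) := by
  obtain ⟨ha, ham, hb, hbm, hab⟩ := h
  exact ⟨by omega, by omega, by omega, by omega, by omega⟩

theorem Val.neg_neg {m a b : ℕ} (h : Val m a b) : m - (m - a) = a ∧ m - (m - b) = b := by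
  obtain ⟨ha, ham, hb, hbm, hab⟩ := h
  exact ⟨by omega, by omega⟩

/-! ### certificates -/

/-- the data of an elimination -/
structure Cert where
  /-- the level -/
  m : ℕ
  /-- first exponent -/
  t0 : ℕ
  /-- the other exponents of a half system -/
  H : List ℕ
  /-- a pair of type zero -/
  r0 : ℕ × ℕ
  /-- pairs whose type is a single exponent -/
  rp : List (ℕ × ℕ × ℕ)
  /-- the elimination steps -/
  steps : List (ℕ × ℕ × ℕ × ℕ)
  /-- one pair for every type -/
  reps : List (ℕ × ℕ)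

/-- the half system -/
def Cert.half (C : Cert) : List ℕ := C.t0 :: C.H

/-- look up a pair -/
def Cert.pr (C : Cert) (t : ℕ) : ℕ × ℕ := (C.rp.lookup t).getD (0, 0)

/-- type vectors -/
def Cert.tv (C : Cert) (a b : ℕ) : List Bool := CC48.tv C.m C.half a b

/-- conditions on a step -/
def Cert.cond (C : Cert) (a b c d e : ℕ) : Bool :=
  decide (Val C.m a b) && decide (Val C.m d c) && decide (Val C.m b c) && decide (Val C.m a e) &&
    (C.half.all fun t => (bit C.m t a b).toNat + (bit C.m t d c).toNat ==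
        (bit C.m t b c).toNat + (bit C.m t a e).toNat)

/-- one step and the rest -/
def Cert.chk (C : Cert) : List (ℕ × ℕ × ℕ × ℕ) → List (List Bool) → List (List Bool)
  | [], K => K
  | x :: s, K =>
    let a := x.1
    let b := x.2.1
    let c := x.2.2.1
    let p := x.2.2.2
    let d := (a + b) % C.m
    let e := (b + c) % C.m
    if C.cond a b c d e then
      if p == 1 then
        if K.contains (C.tv a b) && K.contains (C.tv b c) && K.contains (C.tv a e) then
          C.chk s (C.tv d c :: (C.tv d c).map not :: K) else []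
      else if p == 2 then
        if K.contains (C.tv a b) && K.contains (C.tv d c) && K.contains (C.tv a e) then
          C.chk s (C.tv b c :: (C.tv b c).map not :: K) else []
      else
        if K.contains (C.tv a b) && K.contains (C.tv d c) && K.contains (C.tv b c) then
          C.chk s (C.tv a e :: (C.tv a e).map not :: K) else []
    else []

/-- the vectors known at the beginning -/
def Cert.start (C : Cert) : List (List Bool) :=
  (C.half.map fun _ => false) :: (C.half.map fun _ => true) ::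
    ((C.H.map fun t => C.half.map fun s => s == t) ++
      (C.H.map fun t => (C.half.map fun s => s == t).map not))

/-- all Boolean vectors of a given length -/
def allv : ℕ → List (List Bool)
  | 0 => [[]]
  | n + 1 => (allv n).flatMap fun v => [false :: v, true :: v]

theorem mem_allv : ∀ (n : ℕ) (v : List Bool), v.length = n → v ∈ allv n
  | 0, v, h => by
    rw [List.length_eq_zero_iff] at h
    subst h
    simp [allv]
  | n + 1, v, h => by
    cases v with
    | nil => simp at h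
    | cons x v =>
      have h1 := mem_allv n v (by simpa using h)
      rw [allv, List.mem_flatMap]
      refine ⟨v, h1, ?_⟩
      cases x <;> simp

/-- the whole check -/
def Cert.ok (C : Cert) : Bool :=
  decide (0 < C.m) && decide C.half.Nodup &&
  (C.half.all fun t => decide (Nat.gcd t C.m = 1) && decide (2 * t < C.m)) &&
  decide (Val C.m C.r0.1 C.r0.2) &&
  (C.tv C.r0.1 C.r0.2 == C.half.map fun _ => false) &&
  (C.H.all fun t => decide (Val C.m (C.pr t).1 (C.pr t).2) &&
    (C.tv (C.pr t).1 (C.pr t).2 == C.half.map fun s => s == t)) &&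
  ((allv C.half.length).all fun v => (C.chk C.steps C.start).contains v) &&
  (C.reps.all fun p => decide (Val C.m p.1 p.2)) &&
  (C.reps.map (fun p => C.tv p.1 p.2) == allv C.half.length) &&
  ((List.range C.m).all fun t => !(decide (Nat.gcd t C.m = 1)) || decide (C.m < 2 * t) ||
    C.half.contains t)

/-- certificate for `3` -/
def cert3 : Cert where
  m := 3
  t0 := 1
  H := []
  r0 := (2, 2)
  rp := []
  steps := []
  reps := [(2, 2), (1, 1)]

/-- certificate for `4` -/
def cert4 : Cert where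
  m := 4
  t0 := 1
  H := []
  r0 := (2, 3)
  rp := []
  steps := []
  reps := [(2, 3), (1, 1)]

/-- certificate for `5` -/
def cert5 : Cert where
  m := 5
  t0 := 1
  H := [2]
  r0 := (2, 4)
  rp := [(2, (3, 3))]
  steps := []
  reps := [(2, 4), (1, 2), (3, 3), (1, 1)]

/-- certificate for `6` -/
def cert6 : Cert where
  m := 6
  t0 := 1
  H := []
  r0 := (2, 5)
  rp := []
  steps := []
  reps := [(2, 5), (1, 1)]

/-- certificate for `7` -/
def cert7 : Cert where
  m := 7
  t0 := 1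
  H := [2, 3]
  r0 := (2, 6)
  rp := [(2, (4, 4)), (3, (3, 5))]
  steps := [(1, 1, 2, 1)]
  reps := [(2, 6), (2, 2), (4, 4), (1, 2), (3, 5), (1, 3), (4, 5), (1, 1)]

/-- certificate for `8` -/
def cert8 : Cert where
  m := 8
  t0 := 1
  H := [3]
  r0 := (2, 7)
  rp := [(3, (3, 6))]
  steps := []
  reps := [(2, 7), (1, 2), (3, 6), (1, 1)]

/-- certificate for `9` -/
def cert9 : Cert where
  m := 9
  t0 := 1
  H := [2, 4]
  r0 := (2, 8)
  rp := [(2, (6, 6)), (4, (3, 7))]
  steps := [(1, 2, 3, 2)]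
  reps := [(2, 8), (1, 4), (6, 6), (1, 2), (3, 7), (3, 3), (5, 5), (1, 1)]

/-- certificate for `10` -/
def cert10 : Cert where
  m := 10
  t0 := 1
  H := [3]
  r0 := (2, 9)
  rp := [(3, (4, 7))]
  steps := []
  reps := [(2, 9), (1, 3), (4, 7), (1, 1)]

/-- certificate for `12` -/
def cert12 : Cert where
  m := 12
  t0 := 1
  H := [5]
  r0 := (2, 11)
  rp := [(5, (3, 10))]
  steps := []
  reps := [(2, 11), (1, 2), (3, 10), (1, 1)]

/-- certificate for `14` -/
def cert14 : Cert where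
  m := 14
  t0 := 1
  H := [3, 5]
  r0 := (2, 13)
  rp := [(3, (5, 10)), (5, (3, 12))]
  steps := [(1, 1, 4, 1)]
  reps := [(2, 13), (2, 4), (5, 10), (1, 2), (3, 12), (1, 4), (6, 10), (1, 1)]

/-- certificate for `15` -/
def cert15 : Cert where
  m := 15
  t0 := 1
  H := [2, 4, 7]
  r0 := (2, 14)
  rp := [(2, (10, 10)), (4, (4, 12)), (7, (3, 13))]
  steps := [(1, 1, 2, 1), (1, 4, 5, 2), (11, 7, 1, 2), (1, 8, 8, 1)]
  reps := [(2, 14), (2, 6), (10, 10), (2, 2), (4, 12), (4, 4), (8, 8), (1, 2), (3, 13), (1, 7), (8, 11), (1, 3), (4, 13), (5, 5), (8, 9), (1, 1)]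

/-- certificate for `16` -/
def cert16 : Cert where
  m := 16
  t0 := 1
  H := [3, 5, 7]
  r0 := (2, 15)
  rp := [(3, (6, 11)), (5, (4, 13)), (7, (3, 14))]
  steps := [(1, 1, 2, 1), (1, 1, 4, 1), (1, 1, 5, 1), (1, 2, 3, 1)]
  reps := [(2, 15), (2, 5), (6, 11), (1, 6), (4, 13), (2, 4), (6, 13), (1, 2), (3, 14), (3, 3), (6, 12), (1, 3), (4, 14), (1, 5), (7, 11), (1, 1)]

/-- certificate for `18` -/
def cert18 : Cert where
  m := 18
  t0 := 1
  H := [5, 7]
  r0 := (2, 17)
  rp := [(5, (4, 15)), (7, (3, 16))]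
  steps := [(1, 1, 2, 1)]
  reps := [(2, 17), (1, 7), (4, 15), (1, 2), (3, 16), (1, 3), (4, 16), (1, 1)]

/-- certificate for `20` -/
def cert20 : Cert where
  m := 20
  t0 := 1
  H := [3, 7, 9]
  r0 := (2, 19)
  rp := [(3, (8, 15)), (7, (6, 15)), (9, (5, 16))]
  steps := [(1, 1, 4, 1), (1, 2, 5, 2), (1, 2, 12, 2), (1, 4, 5, 1)]
  reps := [(2, 19), (2, 5), (8, 15), (1, 2), (6, 15), (1, 6), (10, 15), (1, 4), (5, 16), (5, 5), (7, 14), (1, 5), (3, 18), (3, 5), (7, 15), (1, 1)]

/-- certificate for `22` -/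
def cert22 : Cert where
  m := 22
  t0 := 1
  H := [3, 5, 7, 9]
  r0 := (2, 21)
  rp := [(3, (12, 15)), (5, (9, 14)), (7, (4, 19)), (9, (3, 20))]
  steps := [(1, 1, 2, 1), (1, 1, 8, 1), (1, 2, 2, 3), (1, 2, 3, 1), (1, 4, 7, 2), (1, 4, 10, 3), (1, 5, 7, 1), (1, 5, 10, 1), (1, 7, 3, 2), (1, 8, 16, 1), (1, 8, 17, 1)]
  reps := [(2, 21), (3, 7), (12, 15), (2, 3), (9, 14), (2, 6), (9, 17), (1, 9), (4, 19), (2, 7), (8, 17), (1, 4), (6, 19), (1, 7), (9, 16), (1, 2), (3, 20), (3, 6), (8, 15), (3, 3), (5, 18), (3, 5), (8, 18), (1, 3), (4, 20), (4, 5), (8, 16), (1, 8), (5, 19), (5, 7), (10, 15), (1, 1)]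

/-- certificate for `24` -/
def cert24 : Cert where
  m := 24
  t0 := 1
  H := [5, 7, 11]
  r0 := (2, 23)
  rp := [(5, (10, 15)), (7, (4, 21)), (11, (3, 22))]
  steps := [(1, 1, 2, 1), (1, 1, 8, 1), (1, 1, 9, 1), (1, 2, 3, 1)]
  reps := [(2, 23), (2, 3), (10, 15), (1, 6), (4, 21), (1, 4), (6, 21), (1, 2), (3, 22), (3, 3), (5, 20), (1, 3), (4, 22), (1, 9), (5, 21), (1, 1)]

/-- certificate for `30` -/
def cert30 : Cert where
  m := 30
  t0 := 1
  H := [7, 11, 13]
  r0 := (2, 29)
  rp := [(7, (6, 27)), (11, (6, 25)), (13, (7, 24))]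
  steps := [(1, 1, 5, 1), (1, 1, 11, 1), (1, 1, 12, 1), (1, 2, 6, 3)]
  reps := [(2, 29), (2, 4), (6, 27), (1, 2), (6, 25), (1, 4), (9, 22), (1, 6), (7, 24), (1, 8), (5, 26), (1, 5), (3, 28), (1, 12), (6, 26), (1, 1)]

/-- certificate for `36` -/
def cert36 : Cert where
  m := 36
  t0 := 1
  H := [5, 7, 11, 13, 17]
  r0 := (2, 35)
  rp := [(5, (8, 29)), (7, (16, 21)), (11, (4, 33)), (13, (12, 25)), (17, (5, 32))]
  steps := [(1, 1, 3, 1), (1, 1, 6, 1), (1, 1, 11, 1), (1, 2, 2, 2), (1, 2, 12, 3), (1, 2, 18, 1), (1, 2, 21, 2), (1, 2, 22, 1), (1, 2, 24, 2), (1, 2, 26, 1), (1, 2, 27, 2), (1, 3, 2, 3), (1, 3, 3, 1), (1, 3, 4, 1), (1, 3, 7, 3), (1, 3, 14, 2), (1, 3, 19, 1), (1, 3, 20, 2), (1, 3, 27, 1), (1, 4, 2, 1), (1, 4, 5, 1), (1, 4, 7, 1), (1, 4, 9, 1), (1, 4, 14, 1), (1, 6, 7, 1), (1, 6, 13, 1)]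
  reps := [(2, 35), (4, 13), (8, 29), (2, 5), (16, 21), (2, 13), (16, 27), (1, 16), (4, 33), (4, 5), (10, 29), (2, 4), (6, 33), (2, 7), (8, 31), (1, 2), (12, 25), (3, 14), (14, 29), (2, 9), (6, 31), (2, 6), (12, 29), (1, 6), (14, 23), (2, 14), (20, 23), (1, 10), (14, 27), (1, 14), (10, 31), (1, 4), (5, 32), (5, 5), (13, 29), (5, 9), (11, 26), (7, 13), (8, 32), (1, 13), (5, 33), (5, 7), (8, 30), (1, 5), (7, 32), (7, 7), (11, 30), (1, 11), (3, 34), (3, 5), (9, 29), (3, 3), (6, 32), (3, 7), (9, 31), (1, 3), (4, 34), (5, 14), (15, 23), (1, 15), (7, 31), (1, 7), (17, 23), (1, 1)]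

/-- certificate for `42` -/
def cert42 : Cert where
  m := 42
  t0 := 1
  H := [5, 11, 13, 17, 19]
  r0 := (2, 41)
  rp := [(5, (19, 28)), (11, (24, 28)), (13, (14, 33)), (17, (15, 28)), (19, (14, 29))]
  steps := [(1, 1, 13, 1), (1, 4, 9, 2), (1, 4, 14, 2), (1, 4, 23, 2), (1, 5, 28, 1), (1, 8, 5, 2), (1, 9, 14, 2), (1, 9, 18, 2), (1, 9, 19, 1), (1, 9, 34, 1), (1, 9, 36, 2), (1, 10, 14, 1), (1, 11, 3, 2), (1, 11, 14, 1), (1, 12, 14, 1), (1, 12, 31, 1), (1, 13, 3, 1), (1, 13, 6, 1), (1, 13, 14, 1), (1, 13, 30, 1), (1, 14, 7, 1), (1, 15, 7, 1), (1, 16, 32, 3), (1, 16, 35, 2), (1, 17, 31, 1), (1, 18, 35, 1)]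
  reps := [(2, 41), (6, 14), (19, 28), (1, 19), (24, 28), (2, 8), (12, 35), (2, 12), (14, 33), (2, 7), (10, 37), (2, 14), (4, 39), (4, 14), (17, 28), (1, 2), (15, 28), (2, 15), (11, 35), (3, 11), (8, 35), (6, 8), (14, 35), (1, 6), (10, 33), (13, 14), (26, 28), (1, 11), (23, 28), (1, 8), (10, 35), (1, 13), (14, 29), (3, 7), (9, 34), (9, 14), (12, 31), (12, 14), (27, 28), (1, 9), (7, 36), (7, 7), (14, 34), (1, 7), (14, 31), (4, 7), (9, 36), (1, 14), (3, 40), (3, 14), (18, 28), (1, 3), (16, 28), (1, 16), (9, 35), (5, 9), (14, 30), (5, 7), (10, 34), (10, 14), (4, 40), (5, 14), (20, 28), (1, 1)]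

/-- the nineteen levels -/
def levels : List ℕ := [3, 4, 5, 6, 7, 8, 9, 10, 12, 14, 15, 16, 18, 20, 22, 24, 30, 36, 42]

/-- the nineteen certificates -/
def certs : List Cert := [cert3, cert4, cert5, cert6, cert7, cert8, cert9, cert10, cert12, cert14, cert15, cert16, cert18, cert20, cert22, cert24, cert30, cert36, cert42]

theorem certs_ok : (certs.all Cert.ok) = true := by decide +kernel

theorem certs_levels : certs.map Cert.m = levels := by decide +kernel

end CC48
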