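import Pool.Agent.Helper48.CC.Real

/-!
# Types with given averages, and the counting theorem
-/

namespace CC48

open Finset

/-! ### arithmetic -/

theorem sum_lt (s f : ℕ) : ∑ l ∈ range f, (decide (l < s)).toNat = min f s := by
  induction f with
  | zero => simp
  | succ f ih =>
    rw [sum_range_succ, ih]
    by_cases h : f < s
    · simp only [h, decide_true, Bool.toNat_true]
      omega
    · simp only [h, decide_false, Bool.toNat_false]
      omega

theorem sum_min (f : ℕ) : ∀ (w T : ℕ), T ≤ w * f → ∑ k ∈ range w, min f (T - k * f) = T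
  | 0, T, h => by simp at h; simp [h]
  | w + 1, T, h => by
    rw [sum_range_succ']
    have h1 : T - f ≤ w * f := by
      rw [Nat.add_mul, one_mul] at h
      omega
    have h2 := sum_min f w (T - f) h1
    have h3 : ∑ k ∈ range w, min f (T - (k + 1) * f) = ∑ k ∈ range w, min f (T - f - k * f) := by
      refine sum_congr rfl fun k _ => ?_
      rw [Nat.add_mul, one_mul]
      congr 1
      omega
    rw [h3, h2]
    simp only [zero_mul, Nat.sub_zero]
    omega

/-! ### the dichotomy -/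

section
variable {C : Cert} {p f : ℕ}

theorem pow_mod_mod (p k g m : ℕ) : (p % m) ^ k * g % m = p ^ k * g % m := by
  rw [Nat.mul_mod, ← Nat.pow_mod, ← Nat.mul_mod]

theorem ESys.of_mod {m : ℕ} {G : Finset ℕ} (h : ESys m (p % m) f G) : ESys m p f G := by
  refine ⟨h.unit, ?_, ?_, ?_⟩
  · intro t ht hc
    obtain ⟨g, hg, k, hk, e⟩ := h.cover t ht hc
    rw [pow_mod_mod] at e
    exact ⟨g, hg, k, hk, e⟩
  · intro g hg g' hg' k hk k' hk' e
    refine h.inj g hg g' hg' k hk k' hk' ?_
    rw [pow_mod_mod, pow_mod_mod]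
    exact e
  · intro g hg g' hg' k hk k' hk' e
    refine h.disj g hg g' hg' k hk k' hk' ?_
    rw [pow_mod_mod, pow_mod_mod]
    exact e

theorem dicho (hC : C ∈ certs) (h : Lev C p f)
    (hmin : ∀ i, 0 < i → i < f → p ^ i % C.m ≠ 1) :
    (∃ k, p ^ k % C.m = C.m - 1) ∨ ∃ G, ESys C.m p f G := by
  have h1 := (List.all_eq_true.1 chkAll_ok) C hC
  unfold chkAll at h1
  have hm := h.two
  have h2 := (List.all_eq_true.1 h1) (p % C.m) (List.mem_range.2 (Nat.mod_lt _ (by omega)))
  have hone : 1 % C.m = 1 := Nat.mod_eq_of_lt (by omega)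
  have hcop : Nat.gcd (p % C.m) C.m = 1 := coprime_mod h.cop
  have hpow : ∀ k, (p % C.m) ^ k % C.m = p ^ k % C.m := fun k => (Nat.pow_mod _ _ _).symm
  simp only [hcop, decide_true, Bool.not_true, Bool.false_or, Bool.and_eq_true, hpow] at h2
  obtain ⟨h3, h4⟩ := h2
  obtain ⟨f0, hf0, h5⟩ := List.any_eq_true.1 h3
  simp only [Bool.and_eq_true, decide_eq_true_eq] at h5
  have hf : f < 13 := by
    have : f ≤ f0 := by
      by_contra hlt
      exact hmin f0 h5.1 (by omega) h5.2
    have := List.mem_range.1 hf0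
    omega
  have h6 := (List.all_eq_true.1 h4) f (List.mem_range.2 hf)
  have h7 := h.pow
  rw [hone] at h7
  have h8 := h.pos
  simp only [Bool.or_eq_true, decide_eq_true_eq, List.any_eq_true, Bool.and_eq_true] at h6
  rcases h6 with (((h6 | h6) | ⟨i, hi, h6⟩) | ⟨k, _, h6⟩) | h6
  · omega
  · exact absurd h7 h6
  · exact absurd h6.2 (hmin i h6.1 (List.mem_range.1 hi))
  · exact Or.inl ⟨k, h6⟩
  · exact Or.inr ⟨_, (chkE_sound h6).of_mod⟩

/-- if `-1` is a power of `p`, all averages are `f / 2` -/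
theorem av_half (h : Lev C p f) {k : ℕ} (hk : p ^ k % C.m = C.m - 1) {t a b : ℕ}
    (ht : t < C.m) (hc : t.Coprime C.m) (hab : Val C.m a b) :
    2 * av C.m p f t a b = f := by
  have hm := h.two
  have h1 := av_neg (f := f) (by omega) h.cop ht hc hab
  have h2 := av_pow h.pow k t a b
  have h3 : p ^ k * t % C.m = C.m - t := by
    have h0 : 0 < t := pos_of_coprime (by omega) hc
    have e : (C.m - 1) * t % C.m = C.m - t := by
      have := sub_mul_mod (m := C.m) (t := 1) (a := t) (by simp) (by omega) h0 ht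
      rw [this, one_mul, Nat.mod_eq_of_lt ht]
    rw [Nat.mul_mod, hk, ← e, Nat.mul_mod (C.m - 1) t, Nat.mod_eq_of_lt (show C.m - 1 < C.m by omega)]
  rw [← av_mod, h3] at h2
  omega

/-- every averaged type occurs -/
theorem t1av (hC : C ∈ certs) (h : Lev C p f)
    (hmin : ∀ i, 0 < i → i < f → p ^ i % C.m ≠ 1) (s : ℕ → ℕ)
    (hs : ∀ t, t < C.m → t.Coprime C.m → s (p * t % C.m) = s t)
    (hs' : ∀ t, t < C.m → t.Coprime C.m → s (C.m - t) + s t = f) :
    ∃ a b, Val C.m a b ∧ ∀ t, t < C.m → t.Coprime C.m → av C.m p f t a b = s t := by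
  have hm := h.two
  have hspow : ∀ k t, t < C.m → t.Coprime C.m → s (p ^ k * t % C.m) = s t := by
    intro k
    induction k with
    | zero =>
      intro t ht _
      rw [pow_zero, one_mul, Nat.mod_eq_of_lt ht]
    | succ k ih =>
      intro t ht hc
      have e : p ^ (k + 1) * t % C.m = p * (p ^ k * t % C.m) % C.m := by
        rw [pow_succ', mul_assoc, Nat.mul_mod, Nat.mul_mod p (p ^ k * t % C.m), Nat.mod_mod]
      rw [e, hs _ (Nat.mod_lt _ (by omega))
        (coprime_mod (Nat.Coprime.mul_left (Nat.Coprime.pow_left k h.cop) hc)), ih t ht hc]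
  rcases dicho hC h hmin with ⟨k, hk⟩ | ⟨G, hE⟩
  · obtain ⟨a, b, hab, -⟩ := C.types h.ok fun _ => false
    refine ⟨a, b, hab, fun t ht hc => ?_⟩
    have h1 := av_half h hk ht hc hab
    have h2 := hspow k t ht hc
    have h0 : 0 < t := pos_of_coprime (by omega) hc
    have h3 : p ^ k * t % C.m = C.m - t := by
      have e : (C.m - 1) * t % C.m = C.m - t := by
        have := sub_mul_mod (m := C.m) (t := 1) (a := t) (by simp) (by omega) h0 ht
        rw [this, one_mul, Nat.mod_eq_of_lt ht]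
      rw [Nat.mul_mod, hk, ← e, Nat.mul_mod (C.m - 1) t,
        Nat.mod_eq_of_lt (show C.m - 1 < C.m by omega)]
    rw [h3] at h2
    have := hs' t ht hc
    omega
  · obtain ⟨a, b, hab, hw⟩ := realise h hE fun g l => decide (l < s g)
    refine ⟨a, b, hab, fun t ht hc => ?_⟩
    obtain ⟨g, hg, k, hk, e | e⟩ := hE.cover t ht hc
    · have h1 := hE.unit g hg
      rw [← e, av_mod, av_pow h.pow, av_eq (w := fun g l => decide (l < s g))
        (fun k hk => hw g hg k hk), sum_lt, hspow k g h1.1 h1.2]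
      have := hs' g h1.1 h1.2
      omega
    · have h1 := hE.unit g hg
      have h2 := av_neg (f := f) (by omega) h.cop ht hc hab
      have h3 : av C.m p f (C.m - t) a b = s (C.m - t) := by
        rw [← e, av_mod, av_pow h.pow, av_eq (w := fun g l => decide (l < s g))
          (fun k hk => hw g hg k hk), sum_lt, hspow k g h1.1 h1.2]
        have := hs' g h1.1 h1.2
        omega
      have h4 := hs' t ht hc
      omega

variable {A : Type*} [AddCommGroup A]

/-- the counting theorem -/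
theorem count (hC : C ∈ certs) (h : Lev C p f)
    (hmin : ∀ i, 0 < i → i < f → p ^ i % C.m ≠ 1) {q : A} {L : ℕ → ℕ → A}
    (hS : SysA C.m p f q L) {i ν : ℕ} (hi : 2 * ν ≤ i) (a b : Fin i → ℕ)
    (hab : ∀ j, Val C.m (a j) (b j))
    (hsum : ∀ t, t < C.m → t.Coprime C.m → ν * f ≤ ∑ j, av C.m p f t (a j) (b j)) :
    ∃ a' b' : Fin (i - 2 * ν) → ℕ, (∀ k, Val C.m (a' k) (b' k)) ∧
      ∑ j, L (a j) (b j) = ν • q + ∑ k, L (a' k) (b' k) := by
  have hm := h.two
  rcases dicho hC h hmin with ⟨k, hk⟩ | ⟨G, hE⟩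
  · obtain ⟨a0, b0, hab0, -⟩ := C.types h.ok fun _ => false
    have hall : ∀ x y, Val C.m x y → L x y = L a0 b0 := by
      intro x y hxy
      refine hS.same _ _ _ _ hxy hab0 fun t ht hc => ?_
      have h1 := av_half h hk ht hc hxy
      have h2 := av_half h hk ht hc hab0
      omega
    have hq : q = L a0 b0 + L a0 b0 := by
      rw [← hS.conj a0 b0 hab0, hall _ _ hab0.neg]
    refine ⟨fun _ => a0, fun _ => b0, fun _ => hab0, ?_⟩
    rw [Finset.sum_congr rfl fun j _ => hall _ _ (hab j), hq]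
    simp only [sum_const, card_univ, Fintype.card_fin]
    rw [← two_smul ℕ (L a0 b0), smul_smul, ← add_smul]
    congr 1
    omega
  · obtain ⟨c, ε, hq, hL⟩ := avg_affine h hE hS
    set T : ℕ → ℕ := fun g => ∑ j, av C.m p f g (a j) (b j) - ν * f with hT
    have hTle : ∀ g ∈ G, T g ≤ (i - 2 * ν) * f := by
      intro g hg
      obtain ⟨h1, h2⟩ := hE.unit g hg
      have h3 := hsum (C.m - g) (by have := pos_of_coprime (by omega) h2; omega)
        (coprime_neg h1.le h2)
      have h4 : (∑ j, av C.m p f (C.m - g) (a j) (b j)) + ∑ j, av C.m p f g (a j) (b j) =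
          i * f := by
        rw [← Finset.sum_add_distrib, Finset.sum_congr rfl fun j _ =>
          av_neg (f := f) (by omega) h.cop h1 h2 (hab j)]
        simp
      have h5 := hsum g h1 h2
      simp only [hT]
      have h6 : (i - 2 * ν) * f = i * f - 2 * (ν * f) := by
        rw [Nat.sub_mul, mul_assoc]
      omega
    choose a' b' hab' hb' using fun k : Fin (i - 2 * ν) =>
      realise h hE fun g l => decide (l < T g - k * f)
    refine ⟨a', b', hab', ?_⟩
    have hav : ∀ k, ∀ g ∈ G, av C.m p f g (a' k) (b' k) = min f (T g - k * f) := by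
      intro k g hg
      rw [av_eq (w := fun g l => decide (l < T g - k * f)) (fun l hl => hb' k g hg l hl), sum_lt]
    have e1 : ∑ j, L (a j) (b j) = i • c + ∑ g ∈ G, (∑ j, av C.m p f g (a j) (b j)) • ε g := by
      rw [Finset.sum_congr rfl fun j _ => hL _ _ (hab j), Finset.sum_add_distrib,
        Finset.sum_comm]
      simp only [sum_const, card_univ, Fintype.card_fin, Finset.sum_smul]
    have e2 : ∑ k, L (a' k) (b' k) = (i - 2 * ν) • c + ∑ g ∈ G, T g • ε g := by
      rw [Finset.sum_congr rfl fun k _ => hL _ _ (hab' k), Finset.sum_add_distrib,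
        Finset.sum_comm]
      simp only [sum_const, card_univ, Fintype.card_fin]
      congr 1
      refine Finset.sum_congr rfl fun g hg => ?_
      rw [← Finset.sum_smul]
      congr 1
      rw [Finset.sum_congr rfl fun k _ => hav k g hg,
        Fin.sum_univ_eq_sum_range (fun k => min f (T g - k * f)), sum_min _ _ _ (hTle g hg)]
    have e3 : ∀ g ∈ G, (∑ j, av C.m p f g (a j) (b j)) • ε g = (ν * f) • ε g + T g • ε g := by
      intro g hg
      obtain ⟨h1, h2⟩ := hE.unit g hg
      have h5 := hsum g h1 h2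
      rw [← add_smul]
      congr 1
      simp only [hT]
      omega
    rw [e1, e2, Finset.sum_congr rfl e3, Finset.sum_add_distrib, ← hq, ← Finset.smul_sum]
    have e4 : i = 2 * ν + (i - 2 * ν) := by omega
    have e5 : i • c = (2 * ν) • c + (i - 2 * ν) • c := by rw [← add_smul, ← e4]
    rw [e5, smul_add, smul_add, smul_smul, mul_comm 2 ν, mul_smul, two_smul]
    rw [smul_add]
    abel

end

/-! ### final form: all nineteen levels -/

theorem lev_of {m p : ℕ} (hm : m ∈ levels) (hp : p.Coprime m) :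
    ∃ C ∈ certs, C.m = m ∧ Lev C p (orderOf ((p : ℕ) : ZMod m)) ∧
      ∀ i, 0 < i → i < orderOf ((p : ℕ) : ZMod m) → p ^ i % C.m ≠ 1 := by
  rw [← certs_levels, List.mem_map] at hm
  obtain ⟨C, hC, rfl⟩ := hm
  have hok := (List.all_eq_true.1 certs_ok) C hC
  have h2 : 2 < C.m := by
    have h3 : ∀ m ∈ levels, 2 < m := by decide
    apply h3
    rw [← certs_levels]
    exact List.mem_map.2 ⟨C, hC, rfl⟩
  have hunit : IsUnit ((p : ℕ) : ZMod C.m) := (ZMod.isUnit_iff_coprime p C.m).2 hp
  haveI : NeZero C.m := ⟨by omega⟩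
  have hpos : 0 < orderOf ((p : ℕ) : ZMod C.m) := by
    obtain ⟨u, hu⟩ := hunit
    rw [← hu, orderOf_units]
    exact orderOf_pos u
  have hpow : ∀ i, p ^ i % C.m = 1 % C.m ↔ ((p : ℕ) : ZMod C.m) ^ i = 1 := by
    intro i
    have := ZMod.natCast_eq_natCast_iff' (p ^ i) 1 C.m
    rw [Nat.cast_pow, Nat.cast_one] at this
    exact this.symm
  refine ⟨C, hC, rfl, ⟨hok, h2, hp, hpos, (hpow _).2 (pow_orderOf_eq_one _)⟩, ?_⟩
  intro i hi hlt e
  have e' : p ^ i % C.m = 1 % C.m := by rw [e, Nat.mod_eq_of_lt (by omega)]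
  exact absurd (Nat.le_of_dvd hi (orderOf_dvd_of_pow_eq_one ((hpow i).1 e'))) (by omega)

/-- Every averaged type occurs. -/
theorem exists_of_average {m p : ℕ} (hm : m ∈ levels) (hp : p.Coprime m) (s : ℕ → ℕ)
    (hs : ∀ t, t < m → t.Coprime m → s (p * t % m) = s t)
    (hs' : ∀ t, t < m → t.Coprime m → s (m - t) + s t = orderOf ((p : ℕ) : ZMod m)) :
    ∃ a b, Val m a b ∧ ∀ t, t < m → t.Coprime m →
      av m p (orderOf ((p : ℕ) : ZMod m)) t a b = s t := by
  obtain ⟨C, hC, rfl, h, hmin⟩ := lev_of hm hp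
  exact t1av hC h hmin s hs hs'

/-- The counting theorem. -/
theorem exists_decomposition {A : Type*} [AddCommGroup A] {m p : ℕ} (hm : m ∈ levels)
    (hp : p.Coprime m) {q : A} {L : ℕ → ℕ → A}
    (same : ∀ a b a' b', Val m a b → Val m a' b' →
      (∀ t, t < m → t.Coprime m → av m p (orderOf ((p : ℕ) : ZMod m)) t a b =
        av m p (orderOf ((p : ℕ) : ZMod m)) t a' b') → L a b = L a' b')
    (conj : ∀ a b, Val m a b → L a b + L (m - a) (m - b) = q)
    (assoc : ∀ a b c, Val m a b → Val m ((a + b) % m) c → Val m b c → Val m a ((b + c) % m) →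
      L a b + L ((a + b) % m) c = L b c + L a ((b + c) % m))
    {i ν : ℕ} (hi : 2 * ν ≤ i) (a b : Fin i → ℕ) (hab : ∀ j, Val m (a j) (b j))
    (hsum : ∀ t, t < m → t.Coprime m →
      ν * orderOf ((p : ℕ) : ZMod m) ≤ ∑ j, av m p (orderOf ((p : ℕ) : ZMod m)) t (a j) (b j)) :
    ∃ a' b' : Fin (i - 2 * ν) → ℕ, (∀ k, Val m (a' k) (b' k)) ∧
      ∑ j, L (a j) (b j) = ν • q + ∑ k, L (a' k) (b' k) := by
  obtain ⟨C, hC, rfl, h, hmin⟩ := lev_of hm hp
  exact count hC h hmin ⟨same, conj, assoc⟩ hi a b hab hsum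

end CC48
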