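import Pool.Agent.Helper48.CC.Avg

/-!
# The averaged affine form
-/

namespace CC48

open Finset

section
variable {A : Type*} [AddCommGroup A]

/-- a certified level with a residue and its order -/
structure Lev (C : Cert) (p f : ℕ) : Prop where
  ok : C.ok = true
  two : 2 < C.m
  cop : p.Coprime C.m
  pos : 0 < f
  pow : p ^ f % C.m = 1 % C.m

/-- systems of letters, with equality as soon as the averages agree -/
structure SysA (m p f : ℕ) (q : A) (L : ℕ → ℕ → A) : Prop where
  same : ∀ a b a' b', Val m a b → Val m a' b' →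
    (∀ t, t < m → t.Coprime m → av m p f t a b = av m p f t a' b') → L a b = L a' b'
  conj : ∀ a b, Val m a b → L a b + L (m - a) (m - b) = q
  assoc : ∀ a b c, Val m a b → Val m ((a + b) % m) c → Val m b c → Val m a ((b + c) % m) →
    L a b + L ((a + b) % m) c = L b c + L a ((b + c) % m)

variable {C : Cert} {p f : ℕ}

theorem Lev.half_unit (h : Lev C p f) {t : ℕ} (ht : t ∈ C.half) : t < C.m ∧ t.Coprime C.m := by
  obtain ⟨-, -, hH, -⟩ := C.ok_iff h.ok
  have := hH t ht
  exact ⟨by omega, this.1⟩

theorem Lev.half_or (h : Lev C p f) {t : ℕ} (ht : t < C.m) (hc : t.Coprime C.m) :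
    t ∈ C.half ∨ C.m - t ∈ C.half := by
  obtain ⟨-, -, -, -, -, -, -, -, -, hh⟩ := C.ok_iff h.ok
  have hpos := pos_of_coprime (by have := h.two; omega) hc
  by_cases h2 : 2 * t ≤ C.m
  · exact Or.inl (hh t ht hc h2)
  · exact Or.inr (hh _ (by omega) (coprime_neg ht.le hc) (by omega))

/-- bits agreeing on the half system agree everywhere -/
theorem Lev.bit_ext (h : Lev C p f) {a b a' b' : ℕ} (hab : Val C.m a b) (hab' : Val C.m a' b')
    (he : ∀ t ∈ C.half, bit C.m t a b = bit C.m t a' b') {t : ℕ} (hc : t.Coprime C.m) :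
    bit C.m t a b = bit C.m t a' b' := by
  rw [← bit_mod, ← bit_mod C.m t a' b']
  have hlt : t % C.m < C.m := Nat.mod_lt _ (by have := h.two; omega)
  have hc' := coprime_mod hc
  generalize t % C.m = u at hlt hc'
  rcases h.half_or hlt hc' with h1 | h1
  · exact he u h1
  · have h2 := he _ h1
    rw [bit_symm hc' hlt.le hab, bit_symm hc' hlt.le hab'] at h2
    simpa using h2

theorem SysA.toSys (h : Lev C p f) {q : A} {L : ℕ → ℕ → A} (hS : SysA C.m p f q L) :
    Sys C.m C.half q L := by
  refine ⟨?_, hS.conj, hS.assoc⟩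
  intro a b a' b' hab hab' he
  refine hS.same a b a' b' hab hab' fun t _ hc => ?_
  unfold av
  refine sum_congr rfl fun k _ => ?_
  rw [h.bit_ext hab hab' he (Nat.Coprime.mul_left (Nat.Coprime.pow_left k h.cop) hc)]

variable {G : Finset ℕ}

theorem esys_coprime (h : Lev C p f) (hE : ESys C.m p f G) {g k : ℕ} (hg : g ∈ G) :
    (p ^ k * g).Coprime C.m :=
  Nat.Coprime.mul_left (Nat.Coprime.pow_left k h.cop) (hE.unit g hg).2

/-- bits on the coset half system determine all bits -/
theorem esys_ext (h : Lev C p f) (hE : ESys C.m p f G) {P : Bool → Bool → Prop}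
    {x y : ℕ → Bool}
    (hx : ∀ t, t < C.m → t.Coprime C.m → x (C.m - t) = !x t)
    (hy : ∀ t, t < C.m → t.Coprime C.m → y (C.m - t) = !y t)
    (hP : ∀ u v, P u v → P (!u) (!v))
    (he : ∀ g ∈ G, ∀ k < f, P (x (p ^ k * g % C.m)) (y (p ^ k * g % C.m)))
    {t : ℕ} (ht : t < C.m) (hc : t.Coprime C.m) : P (x t) (y t) := by
  obtain ⟨g, hg, k, hk, h1 | h1⟩ := hE.cover t ht hc
  · have := he g hg k hk
    rwa [h1] at this
  · have := he g hg k hk
    rw [h1, hx t ht hc, hy t ht hc] at this
    simpa using hP _ _ this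

theorem bit_anti {a b : ℕ} (hab : Val C.m a b) :
    ∀ t, t < C.m → t.Coprime C.m → bit C.m (C.m - t) a b = !bit C.m t a b :=
  fun _ ht hc => bit_symm hc ht.le hab

/-- every function on the coset half system is realised -/
theorem realise (h : Lev C p f) (hE : ESys C.m p f G) (w : ℕ → ℕ → Bool) :
    ∃ a b, Val C.m a b ∧ ∀ g ∈ G, ∀ k < f, bit C.m (p ^ k * g) a b = w g k := by
  classical
  set F : ℕ → Bool := fun t => decide (∃ g ∈ G, ∃ k < f,
    (p ^ k * g % C.m = t ∧ w g k = true) ∨ (p ^ k * g % C.m = C.m - t ∧ w g k = false)) with hF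
  have hm := h.two
  have hE1 : ∀ g ∈ G, ∀ k < f, F (p ^ k * g % C.m) = w g k := by
    intro g hg k hk
    have hlt : p ^ k * g % C.m < C.m := Nat.mod_lt _ (by omega)
    cases hw : w g k
    · simp only [hF, decide_eq_false_iff_not]
      rintro ⟨g', hg', k', hk', ⟨h1, h2⟩ | ⟨h1, h2⟩⟩
      · obtain ⟨rfl, rfl⟩ := hE.inj g' hg' g hg k' hk' k hk h1
        rw [hw] at h2
        exact absurd h2 (by simp)
      · exact hE.disj g' hg' g hg k' hk' k hk h1
    · simp only [hF, decide_eq_true_eq]
      exact ⟨g, hg, k, hk, Or.inl ⟨rfl, hw⟩⟩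
  have hE2 : ∀ g ∈ G, ∀ k < f, F (C.m - p ^ k * g % C.m) = !w g k := by
    intro g hg k hk
    have hlt : p ^ k * g % C.m < C.m := Nat.mod_lt _ (by omega)
    cases hw : w g k
    · simp only [hF, Bool.not_false, decide_eq_true_eq]
      refine ⟨g, hg, k, hk, Or.inr ⟨by omega, hw⟩⟩
    · simp only [hF, Bool.not_true, decide_eq_false_iff_not]
      rintro ⟨g', hg', k', hk', ⟨h1, h2⟩ | ⟨h1, h2⟩⟩
      · exact hE.disj g' hg' g hg k' hk' k hk h1
      · have e : p ^ k' * g' % C.m = p ^ k * g % C.m := by omega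
        obtain ⟨rfl, rfl⟩ := hE.inj g' hg' g hg k' hk' k hk e
        rw [hw] at h2
        exact absurd h2 (by simp)
  obtain ⟨a, b, hab, hbit⟩ := C.types h.ok F
  refine ⟨a, b, hab, fun g hg k hk => ?_⟩
  rw [← bit_mod]
  have hlt : p ^ k * g % C.m < C.m := Nat.mod_lt _ (by omega)
  have hc : (p ^ k * g % C.m).Coprime C.m := coprime_mod (esys_coprime h hE hg)
  rcases h.half_or hlt hc with h1 | h1
  · rw [hbit _ h1, hE1 g hg k hk]
  · have h2 := hbit _ h1
    rw [bit_symm hc hlt.le hab, hE2 g hg k hk] at h2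
    simpa using h2

theorem av_eq {a b g : ℕ} {w : ℕ → ℕ → Bool}
    (hw : ∀ k < f, bit C.m (p ^ k * g) a b = w g k) :
    av C.m p f g a b = ∑ k ∈ range f, (w g k).toNat := by
  unfold av
  exact sum_congr rfl fun k hk => by rw [hw k (mem_range.1 hk)]

/-- averages agreeing on the representatives agree everywhere -/
theorem av_ext (h : Lev C p f) (hE : ESys C.m p f G) {a b a' b' : ℕ} (hab : Val C.m a b)
    (hab' : Val C.m a' b') (he : ∀ g ∈ G, av C.m p f g a b = av C.m p f g a' b') {t : ℕ}
    (ht : t < C.m) (hc : t.Coprime C.m) : av C.m p f t a b = av C.m p f t a' b' := by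
  have hm : 1 < C.m := by have := h.two; omega
  obtain ⟨g, hg, k, hk, h1 | h1⟩ := hE.cover t ht hc
  · rw [← h1, av_mod, av_mod, av_pow h.pow, av_pow h.pow]
    exact he g hg
  · have h2 := he g hg
    rw [← av_pow h.pow k g a b, ← av_pow h.pow k g a' b', ← av_mod, ← av_mod C.m p f _ a' b',
      h1] at h2
    have h3 := av_neg (f := f) hm h.cop ht hc hab
    have h4 := av_neg (f := f) hm h.cop ht hc hab'
    omega

/-- the parallelogram law -/
theorem para (h : Lev C p f) (hE : ESys C.m p f G) {q : A} {L : ℕ → ℕ → A}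
    (hS : SysA C.m p f q L) {a1 b1 a2 b2 a3 b3 a4 b4 : ℕ} (h1 : Val C.m a1 b1)
    (h2 : Val C.m a2 b2) (h3 : Val C.m a3 b3) (h4 : Val C.m a4 b4)
    (he : ∀ g ∈ G, ∀ k < f, (bit C.m (p ^ k * g) a1 b1).toNat + (bit C.m (p ^ k * g) a2 b2).toNat =
      (bit C.m (p ^ k * g) a3 b3).toNat + (bit C.m (p ^ k * g) a4 b4).toNat) :
    L a1 b1 + L a2 b2 = L a3 b3 + L a4 b4 := by
  obtain ⟨c0, δ, -, hL⟩ := C.affine h.ok (hS.toSys h)
  rw [hL _ _ h1, hL _ _ h2, hL _ _ h3, hL _ _ h4]
  have key : S C.half δ (fun t => bit C.m t a1 b1) + S C.half δ (fun t => bit C.m t a2 b2) =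
      S C.half δ (fun t => bit C.m t a3 b3) + S C.half δ fun t => bit C.m t a4 b4 := by
    refine S_add fun t ht => ?_
    obtain ⟨htm, hc⟩ := h.half_unit ht
    obtain ⟨g, hg, k, hk, e | e⟩ := hE.cover t htm hc
    · have := he g hg k hk
      rw [← bit_mod, ← bit_mod C.m _ a2 b2, ← bit_mod C.m _ a3 b3, ← bit_mod C.m _ a4 b4, e]
        at this
      exact this
    · have := he g hg k hk
      rw [← bit_mod, ← bit_mod C.m _ a2 b2, ← bit_mod C.m _ a3 b3, ← bit_mod C.m _ a4 b4, e,
        bit_symm hc htm.le h1, bit_symm hc htm.le h2, bit_symm hc htm.le h3,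
        bit_symm hc htm.le h4] at this
      cases hh1 : bit C.m t a1 b1 <;> cases hh2 : bit C.m t a2 b2 <;>
        cases hh3 : bit C.m t a3 b3 <;> cases hh4 : bit C.m t a4 b4 <;>
        simp_all
  have e1 : ∀ x y z w c : A, x + y = z + w → c + x + (c + y) = c + z + (c + w) := by
    intro x y z w c hxy
    have : c + x + (c + y) = c + c + (x + y) := by abel
    rw [this, hxy]
    abel
  exact e1 _ _ _ _ _ key

/-- the averaged affine form -/
theorem avg_affine (h : Lev C p f) (hE : ESys C.m p f G) {q : A} {L : ℕ → ℕ → A}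
    (hS : SysA C.m p f q L) :
    ∃ (c : A) (ε : ℕ → A), c + c + f • ∑ g ∈ G, ε g = q ∧
      ∀ a b, Val C.m a b → L a b = c + ∑ g ∈ G, av C.m p f g a b • ε g := by
  classical
  have hm : 1 < C.m := by have := h.two; omega
  obtain ⟨z, z', hz, hzb⟩ := realise h hE fun _ _ => false
  choose e e' he heb using fun g0 => realise h hE fun g k => decide (g = g0 ∧ k = 0)
  set c : A := L z z' with hc
  set ε : ℕ → A := fun g => L (e g) (e' g) - c with hε
  have hmain : ∀ (n : ℕ) (a b : ℕ), Val C.m a b → (∑ g ∈ G, av C.m p f g a b) = n →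
      L a b = c + ∑ g ∈ G, av C.m p f g a b • ε g := by
    intro n
    induction n with
    | zero =>
      intro a b hab hn
      have h0 : ∀ g ∈ G, av C.m p f g a b = 0 := fun g hg => by
        exact (Finset.sum_eq_zero_iff.1 hn) g hg
      have h1 : L a b = c := by
        refine hS.same _ _ _ _ hab hz fun t ht hcop => ?_
        refine av_ext h hE hab hz (fun g hg => ?_) ht hcop
        rw [h0 g hg, av_eq (w := fun _ _ => false) (fun k hk => hzb g hg k hk)]
        simp
      rw [h1, Finset.sum_eq_zero, add_zero]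
      intro g hg
      rw [h0 g hg, zero_smul]
    | succ n ih =>
      intro a b hab hn
      obtain ⟨g0, hg0, hpos⟩ : ∃ g ∈ G, av C.m p f g a b ≠ 0 := by
        by_contra hcon
        push Not at hcon
        rw [Finset.sum_eq_zero hcon] at hn
        omega
      obtain ⟨k0, hk0, hbit⟩ : ∃ k < f, bit C.m (p ^ k * g0) a b = true := by
        by_contra hcon
        push Not at hcon
        apply hpos
        unfold av
        refine Finset.sum_eq_zero fun k hk => ?_
        have := hcon k (mem_range.1 hk)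
        simp [this]
      obtain ⟨a', b', hab', hb'⟩ := realise h hE fun g k =>
        if g = g0 ∧ k = k0 then false else bit C.m (p ^ k * g) a b
      obtain ⟨u, u', hu, hub⟩ := realise h hE fun g k => decide (g = g0 ∧ k = k0)
      have e1 : L a b + L z z' = L a' b' + L u u' := by
        refine para h hE hS hab hz hab' hu fun g hg k hk => ?_
        rw [hzb g hg k hk, hb' g hg k hk, hub g hg k hk]
        by_cases hcase : g = g0 ∧ k = k0
        · obtain ⟨rfl, rfl⟩ := hcase
          simp [hbit]
        · simp [hcase]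
      have e2 : L u u' = L (e g0) (e' g0) := by
        refine hS.same _ _ _ _ hu (he g0) fun t ht hcop => ?_
        refine av_ext h hE hu (he g0) (fun g hg => ?_) ht hcop
        rw [av_eq (w := fun g k => decide (g = g0 ∧ k = k0)) (fun k hk => hub g hg k hk),
          av_eq (w := fun g k => decide (g = g0 ∧ k = 0)) (fun k hk => heb g0 g hg k hk)]
        by_cases hgg : g = g0
        · subst hgg
          simp only [true_and]
          rw [Finset.sum_eq_single_of_mem k0 (mem_range.2 hk0), Finset.sum_eq_single_of_mem 0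
            (mem_range.2 h.pos)]
          · simp
          · intro k _ hk
            simp [hk]
          · intro k _ hk
            simp [hk]
        · simp [hgg]
      have e3 : ∀ g ∈ G, av C.m p f g a b = av C.m p f g a' b' + if g = g0 then 1 else 0 := by
        intro g hg
        rw [av_eq (w := fun g k => if g = g0 ∧ k = k0 then false else bit C.m (p ^ k * g) a b)
          (fun k hk => hb' g hg k hk)]
        unfold av
        by_cases hgg : g = g0
        · subst hgg
          simp only [true_and, if_true]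
          rw [← Finset.add_sum_erase _ _ (mem_range.2 hk0),
            ← Finset.add_sum_erase (range f) _ (mem_range.2 hk0), hbit]
          simp only [if_true, Bool.toNat_true, Bool.toNat_false, zero_add]
          rw [add_comm]
          congr 1
          refine Finset.sum_congr rfl fun k hk => ?_
          rw [if_neg (Finset.ne_of_mem_erase hk)]
        · simp [hgg]
      have e4 : (∑ g ∈ G, av C.m p f g a' b') = n := by
        rw [Finset.sum_congr rfl e3, Finset.sum_add_distrib, Finset.sum_ite_eq' G g0,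
          if_pos hg0] at hn
        omega
      have e5 := ih a' b' hab' e4
      have e6 : L a b = L a' b' + ε g0 := by
        simp only [hε]
        rw [← e2]
        have : L a b = L a' b' + L u u' - L z z' := by rw [← e1]; abel
        rw [this, hc]
        abel
      have e7 : ∑ g ∈ G, av C.m p f g a b • ε g =
          ∑ g ∈ G, (av C.m p f g a' b' • ε g + if g = g0 then ε g else 0) := by
        refine Finset.sum_congr rfl fun g hg => ?_
        rw [e3 g hg, add_smul]
        congr 1
        by_cases hgg : g = g0 <;> simp [hgg]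
      rw [e6, e5, e7, Finset.sum_add_distrib, Finset.sum_ite_eq' G g0, if_pos hg0, add_assoc]
  refine ⟨c, ε, ?_, fun a b hab => hmain _ a b hab rfl⟩
  have h1 := hS.conj z z' hz
  have h2 := hmain _ (C.m - z) (C.m - z') hz.neg rfl
  have h3 : ∀ g ∈ G, av C.m p f g (C.m - z) (C.m - z') = f := by
    intro g hg
    have h4 := av_neg_pair (f := f) hm h.cop (hE.unit g hg).2 hz
    rw [av_eq (a := z) (w := fun _ _ => false) (fun k hk => hzb g hg k hk)] at h4
    simpa using h4
  rw [h2, Finset.sum_congr rfl (fun g hg => by rw [h3 g hg]), ← Finset.smul_sum] at h1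
  rw [← h1, hc]
  abel

end

end CC48
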